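import Pool.Agent.Helper71.HN.SheetZ

/-! Row SGNZ of project HZ: choice of the places near a square and of the signs. -/

set_option autoImplicit false

namespace Pool.Agent.Helper18.HZ

open Polynomial Finset Pool.Agent.Helper70.SUB Pool.Agent.Helper77.SUBK
  Pool.Agent.Helper70.SUBL Pool.Agent.Helper70.SUBW Pool.Agent.Helper71.JN Pool.Agent.Helper71.HN
  Pool.Agent.Helper71.HZ

section one

variable {F Ω : Type} [Field F] [Field Ω] [Algebra F Ω] (v : AbsoluteValue Ω ℝ)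

theorem sgz_sum (hu : ∀ x y : Ω, v (x + y) ≤ max (v x) (v y)) {ι : Type} (s : Finset ι) (a : ι → Ω) {B : ℝ}
    (hB : 0 ≤ B) (h : ∀ k ∈ s, v (a k) ≤ B) : v (∑ k ∈ s, a k) ≤ B := by
  classical
  induction s using Finset.induction_on with
  | empty => simpa using hB
  | insert k s hk ih =>
    rw [Finset.sum_insert hk]
    exact le_trans (hu _ _) (max_le (h k (Finset.mem_insert_self _ _)) (ih (fun l hl => h l (Finset.mem_insert_of_mem hl))))

theorem sgz_coef (hF : ∀ c : F, c ≠ 0 → v (algebraMap F Ω c) = 1) (c : F) : v (algebraMap F Ω c) ≤ 1 := by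
  by_cases h : c = 0
  · rw [h, map_zero, map_zero]; norm_num
  · rw [hF c h]

/-- lower terms of a monic polynomial -/
theorem sgz_low (hu : ∀ x y : Ω, v (x + y) ≤ max (v x) (v y)) (hF : ∀ c : F, c ≠ 0 → v (algebraMap F Ω c) = 1)
    {f : F[X]} (hm : f.Monic) {g : ℕ} (hd : f.natDegree = 2 * g + 1) (x : Ω) :
    v (aeval x f - x ^ (2 * g + 1)) ≤ (max 1 (v x)) ^ (2 * g) := by
  have h1 : aeval x f - x ^ (2 * g + 1) = ∑ k ∈ Finset.range (2 * g + 1), algebraMap F Ω (f.coeff k) * x ^ k := by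
    rw [aeval_eq_sum_range, hd, Finset.sum_range_succ, ← hd, hm.coeff_natDegree, one_smul, add_sub_cancel_right]
    exact Finset.sum_congr rfl (fun k _ => Algebra.smul_def _ _)
  rw [h1]
  have hM : 1 ≤ max 1 (v x) := le_max_left _ _
  apply sgz_sum v hu _ _ (by positivity)
  intro k hk
  rw [Finset.mem_range] at hk
  rw [map_mul, map_pow]
  calc v (algebraMap F Ω (f.coeff k)) * v x ^ k ≤ 1 * (max 1 (v x)) ^ k := by
        apply mul_le_mul (sgz_coef v hF _) _ (by positivity) (by norm_num)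
        exact pow_le_pow_left₀ (v.nonneg _) (le_max_right _ _) k
    _ = (max 1 (v x)) ^ k := one_mul _
    _ ≤ (max 1 (v x)) ^ (2 * g) := pow_le_pow_right₀ hM (by omega)

/-- the size of `y` -/
theorem sgz_y (hu : ∀ x y : Ω, v (x + y) ≤ max (v x) (v y)) (hF : ∀ c : F, c ≠ 0 → v (algebraMap F Ω c) = 1)
    {f : F[X]} (hm : f.Monic) {g : ℕ} (hd : f.natDegree = 2 * g + 1) {x y : Ω} (hy : y ^ 2 = aeval x f) :
    v y ^ 2 ≤ (max 1 (v x)) ^ (2 * g + 1) := by
  have hM : 1 ≤ max 1 (v x) := le_max_left _ _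
  have h1 : y ^ 2 = (aeval x f - x ^ (2 * g + 1)) + x ^ (2 * g + 1) := by rw [hy]; ring
  have h2 : v y ^ 2 = v (y ^ 2) := (map_pow _ _ _).symm
  rw [h2, h1]
  refine le_trans (hu _ _) (max_le ?_ ?_)
  · exact le_trans (sgz_low v hu hF hm hd x) (pow_le_pow_right₀ hM (by omega))
  · rw [map_pow]
    exact pow_le_pow_left₀ (v.nonneg _) (le_max_right _ _) _

/-- the size of `R` -/
theorem sgz_R (hu : ∀ x y : Ω, v (x + y) ≤ max (v x) (v y)) {x R : Ω} (h : v (x - R ^ 2) < v x) : v R ^ 2 = v x := by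
  have h0 : v R ^ 2 = v (R ^ 2) := (map_pow _ _ _).symm
  rw [h0]
  apply le_antisymm
  · have h1 : R ^ 2 = x + -(x - R ^ 2) := by ring
    rw [h1]
    refine le_trans (hu _ _) (max_le le_rfl ?_)
    rw [v.map_neg]; exact h.le
  · have h1 : v x ≤ max (v (x - R ^ 2)) (v (R ^ 2)) := by
      have h2 := hu (x - R ^ 2) (R ^ 2)
      rwa [sub_add_cancel] at h2
    rcases le_max_iff.mp h1 with h2 | h2
    · exact absurd h (not_lt.mpr h2)
    · exact h2

/-- the difference of the squares -/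
theorem sgz_dif (hu : ∀ x y : Ω, v (x + y) ≤ max (v x) (v y)) (hF : ∀ c : F, c ≠ 0 → v (algebraMap F Ω c) = 1)
    {f : F[X]} (hm : f.Monic) {g : ℕ} (hd : f.natDegree = 2 * g + 1) {x y R : Ω} (hy : y ^ 2 = aeval x f)
    (hx : 1 < v x) (h : v (x - R ^ 2) < v x) :
    v (y ^ 2 - (R ^ (2 * g + 1)) ^ 2) < v x ^ (2 * g + 1) := by
  have hR := sgz_R v hu h
  have hmax : max 1 (v x) = v x := max_eq_right hx.le
  have e : y ^ 2 - (R ^ (2 * g + 1)) ^ 2 = (aeval x f - x ^ (2 * g + 1)) + (x ^ (2 * g + 1) - (R ^ 2) ^ (2 * g + 1)) := by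
    rw [hy]; ring
  rw [e]
  refine lt_of_le_of_lt (hu _ _) (max_lt ?_ ?_)
  · refine lt_of_le_of_lt (sgz_low v hu hF hm hd x) ?_
    rw [hmax]
    exact pow_lt_pow_right₀ hx (by omega)
  · have e2 : x ^ (2 * g + 1) - (R ^ 2) ^ (2 * g + 1) =
        (∑ i ∈ Finset.range (2 * g + 1), x ^ i * (R ^ 2) ^ (2 * g + 1 - 1 - i)) * (x - R ^ 2) :=
      (Commute.geom_sum₂_mul (Commute.all _ _) _).symm
    rw [e2, map_mul]
    have h3 : v (∑ i ∈ Finset.range (2 * g + 1), x ^ i * (R ^ 2) ^ (2 * g + 1 - 1 - i)) ≤ v x ^ (2 * g) := by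
      apply sgz_sum v hu _ _ (by positivity)
      intro i hi
      rw [Finset.mem_range] at hi
      rw [map_mul, map_pow, map_pow, map_pow, hR, ← pow_add, show i + (2 * g + 1 - 1 - i) = 2 * g by omega]
    have hx0 : 0 < v x := by linarith
    calc v (∑ i ∈ Finset.range (2 * g + 1), x ^ i * (R ^ 2) ^ (2 * g + 1 - 1 - i)) * v (x - R ^ 2) ≤ v x ^ (2 * g) * v (x - R ^ 2) :=
          mul_le_mul_of_nonneg_right h3 (v.nonneg _)
      _ < v x ^ (2 * g) * v x := mul_lt_mul_of_pos_left h (by positivity)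
      _ = v x ^ (2 * g + 1) := (pow_succ _ _).symm

/-- the sign -/
theorem sgz_sign (hu : ∀ x y : Ω, v (x + y) ≤ max (v x) (v y)) (hF : ∀ c : F, c ≠ 0 → v (algebraMap F Ω c) = 1)
    {f : F[X]} (hm : f.Monic) {g : ℕ} (hd : f.natDegree = 2 * g + 1) {x y R : Ω} (hy : y ^ 2 = aeval x f)
    (hx : 1 < v x) (h : v (x - R ^ 2) < v x) {E : ℝ} (hE : 0 < E) (hE2 : E ^ 2 = v x ^ (2 * g + 1)) :
    v (y - R ^ (2 * g + 1)) < E ∨ v (y - (-R) ^ (2 * g + 1)) < E := by
  by_contra hc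
  rw [not_or, not_lt, not_lt] at hc
  have h1 := sgz_dif v hu hF hm hd hy hx h
  have e : y ^ 2 - (R ^ (2 * g + 1)) ^ 2 = (y - R ^ (2 * g + 1)) * (y - (-R) ^ (2 * g + 1)) := by
    rw [Odd.neg_pow ⟨g, rfl⟩]; ring
  rw [e, map_mul, ← hE2, sq] at h1
  exact absurd h1 (not_lt.mpr (mul_le_mul hc.1 hc.2 hE.le (v.nonneg _)))

end one

theorem SGNZ (hRK : ST_RK) : ST_SGNZ := by
  classical
  intro F Ω _ _ _ _ I _ r D g f m x y R hW
  obtain ⟨-, -, -, -, -, -, -, -, -, -, -, -, -, hprod, -⟩ := hRK F Ω I r D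
  have hm1 : 0 ≤ ∑ i, Real.log (D.nu i m) := by
    have h1 := hprod m hW.mO hW.m0
    rw [← Real.log_prod (fun i _ => (D.nu i).ne_zero hW.m0)]
    exact Real.log_nonneg h1
  obtain ⟨lam, hlam⟩ : ∃ lam : I → ℝ, lam = fun i => 1 / 2 * Real.log (max 1 (D.nu i x)) := ⟨_, rfl⟩
  obtain ⟨c, hc⟩ : ∃ c : I → ℝ, c = fun i => Real.log (max 1 (D.nu i (x - R i ^ 2))) := ⟨_, rfl⟩
  obtain ⟨J, hJ⟩ : ∃ J : Finset I, J = Finset.univ.filter (fun i => 1 < D.nu i x ∧ D.nu i (x - R i ^ 2) < D.nu i x) := ⟨_, rfl⟩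
  obtain ⟨R', hR'⟩ : ∃ R' : I → Ω, R' = fun i => if D.nu i (y - R i ^ (2 * g + 1)) < Real.exp ((2 * g + 1) * lam i) then R i else -R i := ⟨_, rfl⟩
  have hmax0 : ∀ z : Ω, ∀ i, 0 < max 1 (D.nu i z) := fun z i => lt_of_lt_of_le one_pos (le_max_left _ _)
  have hl2 : ∀ i, 2 * lam i = Real.log (max 1 (D.nu i x)) := by intro i; rw [hlam]; ring
  have hexp : ∀ i, Real.exp (2 * lam i) = max 1 (D.nu i x) := by
    intro i; rw [hl2, Real.exp_log (hmax0 _ _)]
  have hl0 : ∀ i, 0 ≤ lam i := by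
    intro i
    have := Real.log_nonneg (le_max_left 1 (D.nu i x))
    rw [← hl2] at this
    linarith
  have hmJ : ∀ i, i ∈ J ↔ 1 < D.nu i x ∧ D.nu i (x - R i ^ 2) < D.nu i x := by
    intro i; rw [hJ, Finset.mem_filter]; simp
  have hsq : ∀ i, R' i ^ 2 = R i ^ 2 := by
    intro i; rw [hR']; dsimp only; split_ifs
    · rfl
    · ring
  -- outside `J`
  have hout : ∀ i, i ∉ J → 2 * lam i ≤ c i := by
    intro i hi
    rw [hmJ, not_and, not_lt] at hi
    rw [hl2, hc]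
    apply Real.log_le_log (hmax0 _ _)
    rcases le_or_gt (D.nu i x) 1 with h | h
    · rw [max_eq_left h]; exact le_max_left _ _
    · exact max_le_max le_rfl (hi h)
  have hexpd : ∀ i, Real.exp ((2 * g + 1) * lam i) ^ 2 = max 1 (D.nu i x) ^ (2 * g + 1) := by
    intro i
    rw [← hexp, ← Real.exp_nat_mul, ← Real.exp_nat_mul]
    congr 1
    push_cast
    ring
  have hmain := hW.main
  have hsl : 1 / 2 * ∑ i, Real.log (max 1 (D.nu i x)) = ∑ i, lam i := by
    rw [hlam, Finset.mul_sum]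
  rw [hsl] at hmain
  have hci : ∑ i, Real.log (max 1 (D.nu i (x - R i ^ 2))) = ∑ i, c i := by rw [hc]
  rw [hci] at hmain
  have hsplit : ∑ i, 2 * lam i + ∑ i ∈ J, (c i - 2 * lam i) ≤ ∑ i, c i := by
    have h1 : ∑ i ∈ J, (c i - 2 * lam i) ≤ ∑ i, (c i - 2 * lam i) := by
      apply Finset.sum_le_sum_of_subset_of_nonneg (Finset.subset_univ _)
      intro i _ hi
      have := hout i hi
      linarith
    have h2 : ∑ i, (c i - 2 * lam i) = ∑ i, c i - ∑ i, 2 * lam i := Finset.sum_sub_distrib _ _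
    rw [h2] at h1
    linarith
  have hs2 : ∑ i, 2 * lam i = 2 * ∑ i, lam i := by rw [Finset.mul_sum]
  have hL0 : 0 ≤ ∑ i, lam i := Finset.sum_nonneg (fun i _ => hl0 i)
  refine ⟨J, lam, c, R', ?_⟩
  refine
    { hg := hW.hg, fm := hW.fm, fd := hW.fd, fs := hW.fs, ic := hW.ic, m0 := hW.m0, mO := hW.mO, xO := hW.xO
      yO := hW.yO, cu := hW.cu, hJ := ?_, l0 := hl0, l1 := ?_, hc := ?_, sx := ?_, sy := ?_, RR := ?_, s1 := ?_
      s2 := ?_, s4 := ?_, big := ?_ }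
  · rw [Finset.nonempty_iff_ne_empty]
    intro h
    rw [h, Finset.sum_empty] at hsplit
    linarith
  · intro i hi
    have h1 := Real.log_pos (show 1 < max 1 (D.nu i x) from lt_of_lt_of_le ((hmJ i).1 hi).1 (le_max_right _ _))
    rw [← hl2] at h1
    linarith
  · intro i hi
    obtain ⟨h1, h2⟩ := (hmJ i).1 hi
    rw [hl2, hc]
    apply Real.log_lt_log (hmax0 _ _)
    rw [max_eq_right h1.le]
    exact max_lt h1 h2
  · intro i; rw [hexp]; exact le_max_right _ _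
  · intro i
    have h1 := sgz_y (D.nu i) (D.ult i) (D.F1 i) hW.fm hW.fd hW.cu
    rw [← hexpd] at h1
    exact (sq_le_sq₀ ((D.nu i).nonneg _) (Real.exp_pos _).le).1 h1
  · intro i _
    rw [hR']; dsimp only; split_ifs
    · exact hW.RR i
    · exact neg_mem (hW.RR i)
  · intro i hi
    obtain ⟨h1, h2⟩ := (hmJ i).1 hi
    have h3 := sgz_R (D.nu i) (D.ult i) h2
    have h4 : D.nu i (R' i) ^ 2 = D.nu i x := by rw [← map_pow, hsq, map_pow, h3]
    have h5 : Real.exp (lam i) ^ 2 = D.nu i x := by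
      rw [← Real.exp_nat_mul]
      have := hexp i
      rw [max_eq_right h1.le] at this
      rw [← this]
      norm_num
    rw [← h5] at h4
    exact (sq_eq_sq₀ ((D.nu i).nonneg _) (Real.exp_pos _).le).1 h4
  · intro i _
    rw [hsq, hc, Real.exp_log (hmax0 _ _)]
    exact le_max_right _ _
  · intro i hi
    obtain ⟨h1, h2⟩ := (hmJ i).1 hi
    have h3 := sgz_sign (D.nu i) (D.ult i) (D.F1 i) hW.fm hW.fd hW.cu h1 h2 (Real.exp_pos ((2 * g + 1) * lam i))
      (by rw [hexpd, max_eq_right h1.le])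
    rw [hR']; dsimp only
    split_ifs with h4
    · exact h4
    · rcases h3 with h3 | h3
      · exact absurd h3 h4
      · exact h3
  · rw [hs2] at hsplit
    linarith

end Pool.Agent.Helper18.HZ
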