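import Pool.Agent.Helper71.HN.SheetH

/-! Row CPL of project HN: completion of a field with a non-archimedean absolute value. -/

set_option autoImplicit false

namespace Pool.Agent.Helper18.HN

open Filter Pool.Agent.Helper71.HN

/-- the spectral norm -/
theorem spn (K' : Type) [NontriviallyNormedField K'] [CompleteSpace K'] [IsUltrametricDist K'] (N : Type)
    [Field N] [Algebra K' N] [FiniteDimensional K' N] :
    ∃ v : AbsoluteValue N ℝ, (∀ a b, v (a + b) ≤ max (v a) (v b)) ∧
        (∀ z, v (algebraMap K' N z) = ‖z‖) ∧ ∀ (σ : N ≃ₐ[K'] N) z, v (σ z) = v z := by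
  refine ⟨{ toFun := spectralNorm K' N
            map_mul' := fun a b => ?_
            nonneg' := fun a => spectralNorm_nonneg a
            eq_zero' := fun a => ⟨fun h => ?_, fun h => ?_⟩
            add_le' := fun a b => ?_ }, fun a b => ?_, fun z => ?_, fun σ z => ?_⟩
  · exact map_mul (spectralMulAlgNorm K' N) a b
  · exact eq_zero_of_map_spectralNorm_eq_zero h (Algebra.IsAlgebraic.isAlgebraic a)
  · subst h
    exact spectralNorm_zero
  · exact map_add_le_add (spectralMulAlgNorm K' N) a b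
  · exact isNonarchimedean_spectralNorm (K := K') (L := N) a b
  · exact spectralNorm_extends z
  · exact (spectralNorm_eq_of_equiv σ z).symm

section
variable {K : Type} [Field K]

open Classical in
/-- the trivial absolute value -/
noncomputable def triv (N : Type) [Field N] : AbsoluteValue N ℝ where
  toFun z := if z = 0 then 0 else 1
  map_mul' a b := by
    by_cases ha : a = 0
    · simp [ha]
    · by_cases hb : b = 0 <;> simp [ha, hb]
  nonneg' a := by
    by_cases ha : a = 0 <;> simp [ha]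
  eq_zero' a := by
    by_cases ha : a = 0 <;> simp [ha]
  add_le' a b := by
    by_cases ha : a = 0
    · rw [ha, zero_add, if_pos rfl, zero_add]
    · by_cases hb : b = 0
      · rw [hb, add_zero, if_pos rfl, add_zero]
      · rw [if_neg ha, if_neg hb]
        split_ifs <;> norm_num

theorem triv_zero (N : Type) [Field N] : triv N 0 = 0 := map_zero _

theorem triv_ne {N : Type} [Field N] {a : N} (h : a ≠ 0) : triv N a = 1 := by
  classical
  show (if a = 0 then (0 : ℝ) else 1) = 1
  rw [if_neg h]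

theorem triv_le {N : Type} [Field N] (a : N) : triv N a ≤ 1 := by
  by_cases h : a = 0
  · rw [h, triv_zero]; norm_num
  · rw [triv_ne h]

theorem triv_add {N : Type} [Field N] (a b : N) : triv N (a + b) ≤ max (triv N a) (triv N b) := by
  by_cases ha : a = 0
  · rw [ha, zero_add]; exact le_max_right _ _
  · rw [triv_ne ha]; exact (triv_le _).trans (le_max_left _ _)

/-- the case of the trivial absolute value -/
theorem cpl_triv [CharZero K] (ν : AbsoluteValue K ℝ) (s : Prop) (δ : K → K) (hU : Ul ν) (hD : Dv δ) (hB : Bd ν s δ)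
    (ht : ∀ z : K, z ≠ 0 → ν z = 1) :
  ∃ (K' : Type) (_ : Field K') (_ : CharZero K') (ι : K →+* K') (ν' : AbsoluteValue K' ℝ)
    (δ' : K' → K'), Ul ν' ∧ Dv δ' ∧ Bd ν' s δ' ∧ (∀ z, ν' (ι z) = ν z) ∧
    (∀ z, δ' (ι z) = ι (δ z)) ∧
    ∀ (N : Type) [Field N] [Algebra K' N] [FiniteDimensional K' N] [IsGalois K' N],
      ∃ v : AbsoluteValue N ℝ, (∀ a b, v (a + b) ≤ max (v a) (v b)) ∧
        (∀ z, v (algebraMap K' N z) = ν' z) ∧ ∀ (σ : N ≃ₐ[K'] N) z, v (σ z) = v z := by
  refine ⟨K, inferInstance, inferInstance, RingHom.id K, ν, δ, hU, hD, hB, fun _ => rfl, fun _ => rfl, ?_⟩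
  intro N _ _ _ _
  refine ⟨triv N, triv_add, fun z => ?_, fun σ z => ?_⟩
  · by_cases h : z = 0
    · rw [h, map_zero, map_zero, map_zero]
    · rw [ht z h, triv_ne]
      exact (_root_.map_ne_zero _).2 h
  · by_cases h : z = 0
    · rw [h, map_zero]
    · rw [triv_ne h, triv_ne]
      exact (_root_.map_ne_zero _).2 h

end

section
variable {A : Type} [NormedField A]

theorem compl_na (h : ∀ a b : A, ‖a + b‖ ≤ max ‖a‖ ‖b‖) (x y : UniformSpace.Completion A) :
    ‖x + y‖ ≤ max ‖x‖ ‖y‖ := by
  refine UniformSpace.Completion.induction_on₂ x y ?_ ?_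
  · exact isClosed_le (by fun_prop) (by fun_prop)
  · intro a b
    rw [← UniformSpace.Completion.coe_add]
    simp only [UniformSpace.Completion.norm_coe]
    exact h a b

/-- a bounded additive map of `A` extends to the completion -/
theorem compl_ext (δ : A → A) (hadd : ∀ a b, δ (a + b) = δ a + δ b)
    (hmul : ∀ a b, δ (a * b) = a * δ b + b * δ a) (hle : ∀ z, ‖δ z‖ ≤ ‖z‖) :
    ∃ δ' : UniformSpace.Completion A → UniformSpace.Completion A,
      (∀ a b, δ' (a + b) = δ' a + δ' b) ∧ (∀ a b, δ' (a * b) = a * δ' b + b * δ' a) ∧ (∀ z, ‖δ' z‖ ≤ ‖z‖) ∧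
      ∀ z : A, δ' (z : UniformSpace.Completion A) = (δ z : A) := by
  let f : NormedAddGroupHom A A := (AddMonoidHom.mk' δ hadd).mkNormedAddGroupHom 1 (by
    intro v
    rw [one_mul]
    exact hle v)
  have hf : ∀ z, f z = δ z := fun z => rfl
  have hc : Continuous f.completion := f.completion.continuous
  have e1 : ∀ z : A, f.completion (z : UniformSpace.Completion A) = (δ z : A) := fun z => by
    rw [NormedAddGroupHom.completion_coe, hf]
  refine ⟨f.completion, fun a b => map_add _ a b, fun a b => ?_, fun z => ?_, e1⟩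
  · refine UniformSpace.Completion.induction_on₂ a b ?_ ?_
    · exact isClosed_eq (by fun_prop) (by fun_prop)
    · intro a b
      rw [← UniformSpace.Completion.coe_mul, e1, e1, e1, hmul, UniformSpace.Completion.coe_add,
        UniformSpace.Completion.coe_mul, UniformSpace.Completion.coe_mul]
  · refine UniformSpace.Completion.induction_on z ?_ ?_
    · exact isClosed_le (by fun_prop) (by fun_prop)
    · intro a
      rw [e1]
      simp only [UniformSpace.Completion.norm_coe]
      exact hle a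

end

/-- the completion -/
theorem cpl_main {K : Type} [Field K] [CharZero K] (ν : AbsoluteValue K ℝ) (s : Prop) (δ : K → K) (hU : Ul ν)
    (hD : Dv δ) (hB : Bd ν s δ) (ht : ∃ z : K, z ≠ 0 ∧ ν z ≠ 1) :
  ∃ (K' : Type) (_ : Field K') (_ : CharZero K') (ι : K →+* K') (ν' : AbsoluteValue K' ℝ)
    (δ' : K' → K'), Ul ν' ∧ Dv δ' ∧ Bd ν' s δ' ∧ (∀ z, ν' (ι z) = ν z) ∧
    (∀ z, δ' (ι z) = ι (δ z)) ∧
    ∀ (N : Type) [Field N] [Algebra K' N] [FiniteDimensional K' N] [IsGalois K' N],
      ∃ v : AbsoluteValue N ℝ, (∀ a b, v (a + b) ≤ max (v a) (v b)) ∧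
        (∀ z, v (algebraMap K' N z) = ν' z) ∧ ∀ (σ : N ≃ₐ[K'] N) z, v (σ z) = v z := by
  obtain ⟨z, hz, hz1⟩ := ht
  have hbig : ∃ z : K, 1 < ν z := by
    rcases lt_or_gt_of_ne hz1 with h | h
    · refine ⟨z⁻¹, ?_⟩
      rw [map_inv₀]
      exact (one_lt_inv₀ (ν.pos hz)).2 h
    · exact ⟨z, h⟩
  obtain ⟨z, hz⟩ := hbig
  let ι : K →+* ν.Completion :=
    (UniformSpace.Completion.coeRingHom (α := WithAbs ν)).comp (WithAbs.equiv ν).symm.toRingHom
  have hι : ∀ a : WithAbs ν, ι a.ofAbs = (a : ν.Completion) := fun a => rfl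
  have hι' : ∀ a : K, ι a = ((WithAbs.toAbs ν a : WithAbs ν) : ν.Completion) := fun a => rfl
  have hn : ∀ a : K, ‖ι a‖ = ν a := fun a => by
    rw [hι', UniformSpace.Completion.norm_coe, WithAbs.norm_toAbs_eq]
  obtain ⟨δ', h1, h2, h3, h4⟩ := compl_ext (A := WithAbs ν) (fun z => WithAbs.toAbs ν (δ z.ofAbs))
    (fun a b => by
      show WithAbs.toAbs ν (δ (a.ofAbs + b.ofAbs)) = _
      rw [hD.1]; rfl)
    (fun a b => by
      show WithAbs.toAbs ν (δ (a.ofAbs * b.ofAbs)) = _
      rw [hD.2]; rfl)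
    (fun z => hB.1 z.ofAbs)
  have h5 : ∀ z : K, δ' (ι z) = ι (δ z) := fun z => by
    rw [hι', h4]; rfl
  have hna : ∀ x y : ν.Completion, ‖x + y‖ ≤ max ‖x‖ ‖y‖ :=
    compl_na (A := WithAbs ν) (fun a b => hU.1 a.ofAbs b.ofAbs)
  have : IsUltrametricDist ν.Completion :=
    IsUltrametricDist.isUltrametricDist_of_forall_norm_add_le_max_norm hna
  refine ⟨ν.Completion, inferInstance, ?_, ι, NormedField.toAbsoluteValue ν.Completion, δ', ⟨hna, ?_⟩,
    ⟨h1, h2⟩, ⟨h3, ?_⟩, hn, h5, ?_⟩
  · exact charZero_of_injective_ringHom ι.injective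
  · intro q hq
    show ‖(q : ν.Completion)‖ = 1
    rw [← map_ratCast ι q, hn, hU.2 q hq]
  · intro hs x hx
    change ‖x‖ ≤ 1 at hx
    show ‖δ' x‖ < 1
    obtain ⟨a, ha⟩ := UniformSpace.Completion.denseRange_coe.exists_mem_open
      (Metric.isOpen_ball (x := x) (ε := 1)) ⟨x, Metric.mem_ball_self one_pos⟩
    rw [Metric.mem_ball, dist_eq_norm] at ha
    have e1 : ‖(a : ν.Completion)‖ ≤ 1 := by
      have := hna ((a : ν.Completion) - x) x
      rw [sub_add_cancel] at this
      exact this.trans (max_le ha.le hx)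
    have e2 : ‖δ' (a : ν.Completion)‖ < 1 := by
      rw [h4, UniformSpace.Completion.norm_coe]
      refine hB.2 hs a.ofAbs ?_
      rwa [UniformSpace.Completion.norm_coe] at e1
    have e3 : ‖δ' (x - a)‖ < 1 := by
      refine (h3 _).trans_lt ?_
      rwa [norm_sub_rev]
    have e4 : δ' x = δ' (x - a) + δ' a := by
      rw [← h1, sub_add_cancel]
    rw [e4]
    exact (hna _ _).trans_lt (max_lt e3 e2)
  · intro N _ _ _ _
    let : NontriviallyNormedField ν.Completion :=
      { (inferInstance : NormedField ν.Completion) with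
        non_trivial := ⟨ι z, by
          have := hn z
          rw [← this] at hz
          exact hz⟩ }
    exact spn ν.Completion N

theorem CPL : ST_CPL := by
  intro K _ _ ν s δ hU hD hB
  by_cases ht : ∀ z : K, z ≠ 0 → ν z = 1
  · exact cpl_triv ν s δ hU hD hB ht
  · push Not at ht
    exact cpl_main ν s δ hU hD hB ht

end Pool.Agent.Helper18.HN
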