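import Pool.Agent.Helper71.HN.SheetH

/-! Row LTR of project HN: the trace as a sum over embeddings into a field where the derivation is bounded. -/

set_option autoImplicit false

namespace Pool.Agent.Helper18.HN

open Polynomial Pool.Agent.Helper71.HN

/-- embeddings and trace -/
theorem ltr_emb (K L N : Type) [Field K] [Field L] [Field N] [CharZero K] [Algebra K L] [FiniteDimensional K L]
    [Algebra K N] (θ : L) (hθ : IntermediateField.adjoin K {θ} = ⊤)
    (hs : ((minpoly K θ).map (algebraMap K N)).Splits) :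
    Fintype.card (L →ₐ[K] N) = Module.finrank K L ∧
      ∀ z, algebraMap K N (Algebra.trace K L z) = ∑ σ : L →ₐ[K] N, σ z := by
  have hsp : ∀ x : L, ((minpoly K x).map (algebraMap K N)).Splits := by
    intro x
    refine IntermediateField.splits_of_mem_adjoin K L (S := {θ}) ?_ (x := x) ?_
    · intro y hy
      rw [Set.mem_singleton_iff] at hy
      subst hy
      exact ⟨Algebra.IsIntegral.isIntegral y, hs⟩
    · rw [hθ]; exact IntermediateField.mem_top
  refine ⟨AlgHom.card_of_splits _ _ _ hsp, fun z => ?_⟩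
  apply (algebraMap N (AlgebraicClosure N)).injective
  rw [map_sum, ← IsScalarTower.algebraMap_apply K N (AlgebraicClosure N), trace_eq_sum_embeddings (AlgebraicClosure N)]
  exact (Fintype.sum_equiv (Algebra.IsAlgebraic.algHomEquivAlgHomOfSplits (AlgebraicClosure N) N hsp) _ _
    (fun σ => rfl)).symm

/-- a derivation along `σ` which vanishes on `K` is zero -/
theorem ltr_uniq {K L N : Type} [Field K] [Field L] [Field N] [CharZero K] [Algebra K L] [FiniteDimensional K L]
    (σ : L →+* N) (D : L → N) (ha : ∀ a b, D (a + b) = D a + D b) (hm : ∀ a b, D (a * b) = σ a * D b + σ b * D a)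
    (h0 : ∀ a : K, D (algebraMap K L a) = 0) (z : L) : D z = 0 := by
  have hD0 : D 0 = 0 := by
    have := ha 0 0
    rw [add_zero] at this
    exact left_eq_add.1 this
  have hpow : ∀ n : ℕ, D (z ^ (n + 1)) = (n + 1 : ℕ) * σ z ^ n * D z := by
    intro n
    induction n with
    | zero => simp
    | succ n ih =>
      rw [pow_succ, hm, ih, map_pow]
      push_cast
      ring
  have key : ∀ p : K[X], D (aeval z p) = σ (aeval z (derivative p)) * D z := by
    intro p
    induction p using Polynomial.induction_on' with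
    | add p q hp hq => rw [map_add, ha, hp, hq, derivative_add, map_add, map_add, add_mul]
    | monomial n a =>
      rw [aeval_monomial, hm, h0, mul_zero, add_zero, derivative_monomial, aeval_monomial]
      cases n with
      | zero =>
        have h1 : D 1 = 0 := by
          have := h0 1
          rwa [map_one] at this
        simp [h1]
      | succ n =>
        rw [hpow, map_mul, map_mul, map_mul, map_pow, map_natCast, map_natCast, Nat.add_sub_cancel]
        ring
  have h1 := key (minpoly K z)
  rw [minpoly.aeval, hD0] at h1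
  have h2 : aeval z (derivative (minpoly K z)) ≠ 0 :=
    (Algebra.IsSeparable.isSeparable K z).aeval_derivative_ne_zero (minpoly.aeval K z)
  rcases mul_eq_zero.1 h1.symm with h3 | h3
  · exact absurd ((map_eq_zero σ).1 h3) h2
  · exact h3

theorem LTR (hX : ST_DEX) (hL : ST_LOC) (hC : ST_CPL) : ST_LTR := by
  intro K L _ _ _ _ _ ν s δ Δ hU hD hB hDΔ hΔ
  obtain ⟨K', _, _, ι₀, ν', δ₀, hU', hD', hB', hν', hδ₀, hN⟩ := hC K ν s δ hU hD hB
  obtain ⟨θ, hθ⟩ := Field.exists_primitive_element K L
  -- the field `N`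
  obtain ⟨N, _, _, _, _, hs⟩ : ∃ (N : Type) (_ : Field N) (_ : Algebra K' N) (_ : FiniteDimensional K' N)
      (_ : IsGalois K' N), ((minpoly K θ).map ((algebraMap K' N).comp ι₀)).Splits := by
    refine ⟨((minpoly K θ).map ι₀).SplittingField, inferInstance, inferInstance, inferInstance, ?_, ?_⟩
    · have := Normal.of_isSplittingField (F := K') (E := ((minpoly K θ).map ι₀).SplittingField) ((minpoly K θ).map ι₀)
      exact ⟨⟩
    · rw [← Polynomial.map_map]
      exact SplittingField.splits _
  obtain ⟨v, hv1, hv2, hv3⟩ := hN N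
  have : CharZero N := charZero_of_injective_algebraMap (algebraMap K' N).injective
  obtain ⟨δ', hδ', hδ'2⟩ := hX K' N δ₀ hD'
  have hUv : Ul v := by
    refine ⟨hv1, fun q hq => ?_⟩
    rw [← map_ratCast (algebraMap K' N) q, hv2, hU'.2 q hq]
  have hBv : Bd v s δ' := by
    refine hL K' N v s δ' hUv hv3 hδ' (fun z => ?_) (fun hs z hz => ?_)
    · rw [hδ'2, hv2, hv2]; exact hB'.1 z
    · rw [hδ'2, hv2]
      rw [hv2] at hz
      exact hB'.2 hs z hz
  let := ((algebraMap K' N).comp ι₀).toAlgebra
  have hal : algebraMap K N = (algebraMap K' N).comp ι₀ := rfl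
  obtain ⟨hc, htr⟩ := ltr_emb K L N θ hθ (by rw [hal]; exact hs)
  have hinj : Function.Injective (fun σ : L →ₐ[K] N => (σ : L →+* N)) := AlgHom.coe_ringHom_injective
  refine ⟨N, inferInstance, v, (algebraMap K' N).comp ι₀, δ', Finset.univ.map ⟨_, hinj⟩, hUv, hδ', hBv, fun z => ?_,
    fun z => ?_, ?_, ?_, ?_, fun z => ?_⟩
  · rw [RingHom.comp_apply, hv2, hν']
  · rw [RingHom.comp_apply, hδ'2, hδ₀]; rfl
  · intro τ hτ z
    obtain ⟨σ, -, rfl⟩ := Finset.mem_map.1 hτ
    exact σ.commutes z
  · intro τ hτ z
    obtain ⟨σ, -, rfl⟩ := Finset.mem_map.1 hτ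
    have h := ltr_uniq (K := K) (σ : L →+* N) (fun z => δ' (σ z) - σ (Δ z)) (fun a b => ?_) (fun a b => ?_)
      (fun a => ?_) z
    · exact sub_eq_zero.1 h
    · simp only [map_add, hδ'.1, hDΔ.1]; ring
    · simp only [map_add, map_mul, hδ'.2, hDΔ.2, RingHom.coe_coe]; ring
    · rw [hΔ, σ.commutes, σ.commutes, hal, RingHom.comp_apply, hδ'2, hδ₀, sub_eq_zero]; rfl
  · rw [Finset.card_map, Finset.card_univ, hc]
  · rw [Finset.sum_map]
    exact htr z

end Pool.Agent.Helper18.HN
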