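import Pool.Agent.Helper71.HN.SheetE

/-!
Row SUBE of project HE (MP_2a8cc2_nt): the substitution `x = e + 1 / z`.
-/

set_option autoImplicit false

namespace Pool.Agent.Helper18.HE

open Polynomial Pool.Agent.Helper71.HE

/-- the reverse of a squarefree polynomial with nonzero constant coefficient is squarefree -/
theorem squarefree_reverse {K : Type} [Field K] {T : K[X]} (hT : Squarefree T)
    (h0 : T.coeff 0 ≠ 0) : Squarefree T.reverse := by
  have hT0 : T ≠ 0 := by
    rintro rfl
    exact h0 (by simp)
  have hrr : T.reverse.reverse = T := by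
    have hd : T.reverse.natDegree = T.natDegree := by
      rw [reverse_natDegree]
      have : T.natTrailingDegree = 0 := by
        rw [natTrailingDegree_eq_zero]
        exact Or.inr h0
      omega
    rw [reverse, hd, reverse, reflect_reflect]
  intro p hp
  obtain ⟨q, hq⟩ := hp
  have hp0 : p.coeff 0 ≠ 0 := by
    intro h
    have h1 : T.reverse.coeff 0 = 0 := by
      rw [hq, mul_coeff_zero, mul_coeff_zero, h]
      simp
    rw [coeff_zero_reverse] at h1
    exact hT0 (leadingCoeff_eq_zero.mp h1)
  have h2 : p.reverse * p.reverse ∣ T := by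
    refine ⟨q.reverse, ?_⟩
    rw [← hrr, hq, reverse_mul_of_domain, reverse_mul_of_domain]
  have h3 : IsUnit p.reverse := hT _ h2
  have h4 : p.natDegree = 0 := by
    have h5 : p.reverse.natDegree = 0 := natDegree_eq_zero_of_isUnit h3
    rw [reverse_natDegree] at h5
    have : p.natTrailingDegree = 0 := by
      rw [natTrailingDegree_eq_zero]
      exact Or.inr hp0
    omega
  rw [natDegree_eq_zero] at h4
  obtain ⟨c, rfl⟩ := h4
  rw [coeff_C_zero] at hp0
  exact isUnit_C.mpr (isUnit_iff_ne_zero.mpr hp0)

theorem SUBE : ST_SUBE := by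
  intro K _ _ F g e z x y hd hs he hz hx hy
  set T : K[X] := taylor e F with hT
  have hTd : T.natDegree = F.natDegree := natDegree_taylor F e
  have hT0 : T.coeff 0 = F.eval e := taylor_coeff_zero e F
  have hT0' : T.coeff 0 ≠ 0 := by rw [hT0]; exact he
  have hTne : T ≠ 0 := by
    rintro h
    exact hT0' (by rw [h]; simp)
  have hTs : Squarefree T := by
    have h1 : T.Separable := by
      have h3 : IsCoprime ((taylorEquiv e) F) ((taylorEquiv e) (derivative F)) :=
        IsCoprime.map hs (taylorEquiv e).toRingEquiv.toRingHom
      have h4 : derivative T = taylor e (derivative F) := by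
        rw [hT, taylor_apply, taylor_apply, derivative_comp]
        simp
      rw [Polynomial.Separable, h4]
      exact h3
    exact h1.squarefree
  set N : ℕ := 2 * g + 2 with hN
  have hTN : T.natDegree ≤ N := by omega
  have hG0 : (T.reflect N).coeff N = F.eval e := by
    rw [coeff_reflect, revAt_le le_rfl, Nat.sub_self, hT0]
  have hGd : (T.reflect N).natDegree = N := by
    apply le_antisymm
    · rw [natDegree_le_iff_coeff_eq_zero]
      intro i hi
      rw [coeff_reflect, revAt_eq_self_of_lt hi]
      exact coeff_eq_zero_of_natDegree_lt (by omega)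
    · exact le_natDegree_of_ne_zero (by rw [hG0]; exact he)
  have hrev : Squarefree T.reverse := squarefree_reverse hTs hT0'
  have hGs : Squarefree (T.reflect N) := by
    rcases hd with hd | hd
    · have : T.reflect N = T.reverse := by rw [reverse, hTd, hd]
      rw [this]
      exact hrev
    · have hX : T.reflect N = X * T.reverse := by
        ext i
        rcases i with _ | i
        · rw [mul_coeff_zero, coeff_X_zero, zero_mul, coeff_reflect, revAt_le (by omega)]
          exact coeff_eq_zero_of_natDegree_lt (by omega)
        · rw [coeff_X_mul, coeff_reflect, coeff_reverse, hTd, hd]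
          by_cases hi : i ≤ 2 * g + 1
          · rw [revAt_le (by omega), revAt_le hi]
            congr 1
            omega
          · rw [revAt_eq_self_of_lt (by omega), revAt_eq_self_of_lt (by omega),
              coeff_eq_zero_of_natDegree_lt (by omega), coeff_eq_zero_of_natDegree_lt (by omega)]
      rw [hX]
      have hc : IsCoprime (X : K[X]) T.reverse := by
        have hl : T.reverse.coeff 0 ≠ 0 := by
          rw [coeff_zero_reverse]
          exact leadingCoeff_ne_zero.mpr hTne
        refine ⟨-(C (T.reverse.coeff 0)⁻¹ * T.reverse.divX), C (T.reverse.coeff 0)⁻¹, ?_⟩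
        have h1 := divX_mul_X_add T.reverse
        have h2 : C (T.reverse.coeff 0)⁻¹ * C (T.reverse.coeff 0) = (1 : K[X]) := by
          rw [← C_mul, inv_mul_cancel₀ hl, C_1]
        calc -(C (T.reverse.coeff 0)⁻¹ * T.reverse.divX) * X + C (T.reverse.coeff 0)⁻¹ * T.reverse
            = C (T.reverse.coeff 0)⁻¹ * (T.reverse - T.reverse.divX * X) := by ring
          _ = C (T.reverse.coeff 0)⁻¹ * C (T.reverse.coeff 0) := by
              congr 1
              rw [sub_eq_iff_eq_add]
              rw [add_comm]
              exact h1.symm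
          _ = 1 := h2
      have hXs : (X : K[X]).Separable := separable_X
      have hrs : T.reverse.Separable := PerfectField.separable_iff_squarefree.mpr hrev
      exact (hXs.mul hrs hc).squarefree
  refine ⟨T.reflect N, hGd, PerfectField.separable_iff_squarefree.mpr hGs, hG0, ?_, ?_⟩
  · have : Invertible (z⁻¹) := invertibleOfNonzero (inv_ne_zero hz)
    have h1 := eval₂_reflect_mul_pow (RingHom.id K) (z⁻¹) N T hTN
    have h2 : ⅟(z⁻¹) = z := by rw [invOf_eq_inv, inv_inv]
    rw [h2, eval₂_id, eval₂_id] at h1
    have h3 : T.eval z⁻¹ = y ^ 2 := by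
      rw [hT, taylor_eval, hy, hx, one_div, add_comm]
    rw [h3] at h1
    have hzN : z ^ N ≠ 0 := pow_ne_zero _ hz
    have h4 : z⁻¹ ^ N * z ^ N = 1 := by
      rw [← mul_pow, inv_mul_cancel₀ hz, one_pow]
    calc (y * z ^ (g + 1)) ^ 2 = y ^ 2 * z ^ N := by rw [hN]; ring
      _ = (T.reflect N).eval z * z⁻¹ ^ N * z ^ N := by rw [← h1]
      _ = (T.reflect N).eval z := by rw [mul_assoc, h4, mul_one]
  · intro i hi
    rw [coeff_reflect, revAt_le hi]

end Pool.Agent.Helper18.HE
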