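import Pool.Agent.Helper71.HN.SheetO
import Pool.Agent.Helper18.HN.SUBE

/-!
Row SUBO of project HO (MP_2a8cc2_nt): the substitution `x = e + 1 / z` at a root `e` of `F`.
-/

set_option autoImplicit false

namespace Pool.Agent.Helper18.HO

open Polynomial Pool.Agent.Helper71.HE Pool.Agent.Helper71.HO Pool.Agent.Helper18.HE

theorem sep_reflect {K : Type} [Field K] [CharZero K] {T : K[X]} {N : ℕ}
    (hd : T.natDegree = N ∨ T.natDegree + 1 = N) (hTs : Squarefree T) (h0 : T.coeff 0 ≠ 0) :
    (T.reflect N).Separable := by
  have hTne : T ≠ 0 := by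
    rintro h
    exact h0 (by rw [h]; simp)
  have hrev : Squarefree T.reverse := squarefree_reverse hTs h0
  rw [PerfectField.separable_iff_squarefree]
  rcases hd with hd | hd
  · have : T.reflect N = T.reverse := by rw [reverse, hd]
    rw [this]
    exact hrev
  · have hX : T.reflect N = X * T.reverse := by
      ext i
      rcases i with _ | i
      · rw [mul_coeff_zero, coeff_X_zero, zero_mul, coeff_reflect, revAt_le (by omega)]
        exact coeff_eq_zero_of_natDegree_lt (by omega)
      · rw [coeff_X_mul, coeff_reflect, coeff_reverse]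
        by_cases hi : i ≤ T.natDegree
        · rw [revAt_le (by omega), revAt_le hi]
          congr 1
          omega
        · rw [revAt_eq_self_of_lt (by omega), revAt_eq_self_of_lt (by omega),
            coeff_eq_zero_of_natDegree_lt (by omega), coeff_eq_zero_of_natDegree_lt (by omega)]
    rw [hX]
    have hc : IsCoprime (X : K[X]) T.reverse := by
      have hl : T.reverse.coeff 0 ≠ 0 := by
        rw [coeff_zero_reverse]
        exact leadingCoeff_ne_zero.mpr hTne
      refine ⟨-(C (T.reverse.coeff 0)⁻¹ * T.reverse.divX), C (T.reverse.coeff 0)⁻¹, ?_⟩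
      have h1 := divX_mul_X_add T.reverse
      have h2 : C (T.reverse.coeff 0)⁻¹ * C (T.reverse.coeff 0) = (1 : K[X]) := by
        rw [← C_mul, inv_mul_cancel₀ hl, C_1]
      calc -(C (T.reverse.coeff 0)⁻¹ * T.reverse.divX) * X + C (T.reverse.coeff 0)⁻¹ * T.reverse
          = C (T.reverse.coeff 0)⁻¹ * (T.reverse - T.reverse.divX * X) := by ring
        _ = C (T.reverse.coeff 0)⁻¹ * C (T.reverse.coeff 0) := by
            congr 1
            rw [sub_eq_iff_eq_add]
            rw [add_comm]
            exact h1.symm
        _ = 1 := h2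
    have hXs : (X : K[X]).Separable := separable_X
    have hrs : T.reverse.Separable := PerfectField.separable_iff_squarefree.mpr hrev
    exact (hXs.mul hrs hc).squarefree

theorem SUBO : ST_SUBO := by
  intro K _ _ F g e z x y hd hg hs he hz hx hy
  set T : K[X] := taylor e F with hT
  have hTd : T.natDegree = F.natDegree := natDegree_taylor F e
  have hT0 : T.coeff 0 = 0 := (taylor_coeff_zero e F).trans he
  have hT1 : T.coeff 1 = F.derivative.eval e := taylor_coeff_one e F
  have hder : F.derivative.eval e ≠ 0 := by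
    intro h
    obtain ⟨a, b, hab⟩ := hs
    have h1 := congrArg (eval e) hab
    rw [eval_add, eval_mul, eval_mul, he, h] at h1
    simp at h1
  have hTs : Squarefree T := by
    have h1 : T.Separable := by
      have h3 : IsCoprime ((taylorEquiv e) F) ((taylorEquiv e) (derivative F)) :=
        IsCoprime.map hs (taylorEquiv e).toRingEquiv.toRingHom
      have h4 : derivative T = taylor e (derivative F) := by
        rw [hT, taylor_apply, taylor_apply, derivative_comp]
        simp
      rw [Polynomial.Separable, h4]
      exact h3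
    exact h1.squarefree
  set Q : K[X] := T.divX with hQ
  have hTQ : T = Q * X := by
    have := divX_mul_X_add T
    rw [hT0, C_0, add_zero] at this
    exact this.symm
  have hQ0 : Q.coeff 0 = F.derivative.eval e := by rw [hQ, coeff_divX, hT1]
  have hQs : Squarefree Q := hTs.squarefree_of_dvd ⟨X, hTQ⟩
  have hQd : Q.natDegree = T.natDegree - 1 := by rw [hQ, natDegree_divX_eq_natDegree_tsub_one]
  have hTN : T.natDegree ≤ 2 * g + 2 := by omega
  have hrefl : T.reflect (2 * g + 2) = Q.reflect (2 * g + 1) := by
    ext i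
    rw [coeff_reflect, coeff_reflect, hQ, coeff_divX]
    by_cases hi : i ≤ 2 * g + 1
    · rw [revAt_le (by omega), revAt_le hi]
      congr 1
      omega
    · rw [revAt_eq_self_of_lt (N := 2 * g + 1) (by omega)]
      by_cases hi2 : i = 2 * g + 2
      · subst hi2
        rw [revAt_le le_rfl, Nat.sub_self, hT0, coeff_eq_zero_of_natDegree_lt (by omega)]
      · rw [revAt_eq_self_of_lt (by omega), coeff_eq_zero_of_natDegree_lt (by omega),
          coeff_eq_zero_of_natDegree_lt (by omega)]
  have hG0 : (T.reflect (2 * g + 2)).coeff (2 * g + 1) = F.derivative.eval e := by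
    rw [hrefl, coeff_reflect, revAt_le le_rfl, Nat.sub_self, hQ0]
  have hGd : (T.reflect (2 * g + 2)).natDegree = 2 * g + 1 := by
    apply le_antisymm
    · rw [natDegree_le_iff_coeff_eq_zero]
      intro i hi
      rw [hrefl, coeff_reflect, revAt_eq_self_of_lt hi]
      exact coeff_eq_zero_of_natDegree_lt (by omega)
    · exact le_natDegree_of_ne_zero (by rw [hG0]; exact hder)
  have hGs : (T.reflect (2 * g + 2)).Separable := by
    rw [hrefl]
    exact sep_reflect (by omega) hQs (by rw [hQ0]; exact hder)
  refine ⟨T.reflect (2 * g + 2), hGd, hGs, hG0, ?_, ?_⟩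
  · have : Invertible (z⁻¹) := invertibleOfNonzero (inv_ne_zero hz)
    have h1 := eval₂_reflect_mul_pow (RingHom.id K) (z⁻¹) (2 * g + 2) T hTN
    have h2 : ⅟(z⁻¹) = z := by rw [invOf_eq_inv, inv_inv]
    rw [h2, eval₂_id, eval₂_id] at h1
    have h3 : T.eval z⁻¹ = y ^ 2 := by
      rw [hT, taylor_eval, hy, hx, one_div, add_comm]
    rw [h3] at h1
    have h4 : z⁻¹ ^ (2 * g + 2) * z ^ (2 * g + 2) = 1 := by
      rw [← mul_pow, inv_mul_cancel₀ hz, one_pow]
    calc (y * z ^ (g + 1)) ^ 2 = y ^ 2 * z ^ (2 * g + 2) := by ring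
      _ = (T.reflect (2 * g + 2)).eval z * z⁻¹ ^ (2 * g + 2) * z ^ (2 * g + 2) := by rw [← h1]
      _ = (T.reflect (2 * g + 2)).eval z := by rw [mul_assoc, h4, mul_one]
  · intro i hi
    rw [coeff_reflect, revAt_le (by omega)]

end Pool.Agent.Helper18.HO
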